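import Pool.Agent.Helper61.QE.St4

set_option autoImplicit false

open MeasureTheory Set Filter Topology Complex
open scoped ContDiff ComplexConjugate ENNReal

namespace Pool.Agent.Helper2.QE

open Pool.Agent.Helper61.QE

theorem pCVH : Pool.Agent.Helper61.QE.StCVH := by
  intro V S f hV hf hSV hS hinj g
  have hd : ∀ z ∈ S, HasFDerivWithinAt f
      (((ContinuousLinearMap.toSpanSingleton ℂ (deriv f z) : ℂ →L[ℂ] ℂ)).restrictScalars ℝ) S z := by
    intro z hz
    have h1 : HasDerivAt f (deriv f z) z :=
      ((hf z (hSV hz)).differentiableAt (hV.mem_nhds (hSV hz))).hasDerivAt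
    exact (h1.hasFDerivAt.restrictScalars ℝ).hasFDerivWithinAt
  rw [lintegral_image_eq_lintegral_abs_det_fderiv_mul volume hS hd hinj g]
  refine lintegral_congr (fun z => ?_)
  rw [Pool.Agent.Helper80.Bieb.det_mul, abs_of_nonneg (by positivity), mul_comm]

end Pool.Agent.Helper2.QE
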